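import Pool.Agent.H2.GH3

namespace Pool.Agent.Results.MP_c3dba2_gt.Impl
open Pool.Agent.H2.GH3

/-- statement (C) -/
def C : Prop := ∀ (X₁ X₂ X₃ : Type) [MetricSpace X₁] [MetricSpace X₂] [MetricSpace X₃]
  [Nonempty X₁] [Nonempty X₂] [Nonempty X₃] [CompactSpace X₁] [CompactSpace X₂] [CompactSpace X₃],
  CC X₁ X₂ X₃

/-- statement (H) -/
def H : Prop := ∀ (X₁ X₂ X₃ : Type) [MetricSpace X₁] [MetricSpace X₂] [MetricSpace X₃]
  [Nonempty X₁] [Nonempty X₂] [Nonempty X₃] [CompactSpace X₁] [CompactSpace X₂] [CompactSpace X₃],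
  Real3 X₁ X₂ X₃ (dGH X₁ X₂) (dGH X₁ X₃) (dGH X₂ X₃)

theorem result : (C → H) ∧ ¬ C ∧ ¬ H ∧
    ∃ (X₁ X₂ X₃ : Type) (_ : MetricSpace X₁) (_ : MetricSpace X₂) (_ : MetricSpace X₃),
      Nonempty X₁ ∧ Nonempty X₂ ∧ Nonempty X₃ ∧ CompactSpace X₁ ∧ CompactSpace X₂ ∧
      CompactSpace X₃ ∧ CC X₁ X₂ X₃ ∧ ¬ Real3 X₁ X₂ X₃ (dGH X₁ X₂) (dGH X₁ X₃) (dGH X₂ X₃) := by
  have h := B_not (dGH_le (M := B₁) (N := B₂) (f := id) (by decide) Function.surjective_id)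
    (dGH_le (M := B₁) (N := B₃) (f := id) (by decide) Function.surjective_id)
    (dGH_le (M := B₂) (N := B₃) (f := id) (by decide) Function.surjective_id)
  exact ⟨fun hC => absurd (hC _ _ _) not_CC, fun hC => not_CC (hC _ _ _), fun hH => h (hH _ _ _),
    B₁.X, B₂.X, B₃.X, inferInstance, inferInstance, inferInstance, inferInstance, inferInstance,
    inferInstance, inferInstance, inferInstance, inferInstance, B_CC, h⟩

end Pool.Agent.Results.MP_c3dba2_gt.Impl
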